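import Pool.Agent.W606.UB.Stm

set_option autoImplicit false

namespace KN

namespace UB

open Finset Filter Topology
open scoped Classical

noncomputable section

namespace W853

theorem chain_zip (L : List V) : ∀ (p c : V), chain p (L ++ [c]) = (p :: L).zip (L ++ [c]) := by
  induction L with
  | nil => intro p c; rfl
  | cons q L ih =>
    intro p c
    rw [List.cons_append]
    show (p, q) :: chain q (L ++ [c]) = (p, q) :: (q :: L).zip (L ++ [c])
    rw [ih]

theorem edges_cyc (f : V × ℝ → V) (l : List (V × ℝ)) :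
    edges (l.map f) = (cyc l).map (fun e => (f e.1, f e.2)) := by
  cases l with
  | nil => rfl
  | cons a m =>
    have h1 : edges ((a :: m).map f) = chain (f a) (m.map f ++ [f a]) := rfl
    have h2 : cyc (a :: m) = (a :: m).zip (m ++ [a]) := rfl
    rw [h1, h2, chain_zip]
    have h3 : m.map f ++ [f a] = (m ++ [a]).map f := by simp
    have h4 : f a :: m.map f = (a :: m).map f := rfl
    rw [h3, h4, List.zip_map]
    rfl

theorem exists_next (l : List (V × ℝ)) (e : (V × ℝ) × (V × ℝ)) (he : e ∈ cyc l) :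
    ∃ e' ∈ cyc l, e'.1 = e.2 := by
  have h1 : e.2 ∈ l := by
    have h2 : e.2 ∈ l.tail ++ l.take 1 := (List.of_mem_zip (show (e.1, e.2) ∈ _ from he)).2
    rcases List.mem_append.1 h2 with h | h
    · exact List.mem_of_mem_tail h
    · exact List.mem_of_mem_take h
  have h3 : (cyc l).map Prod.fst = l := by
    unfold cyc
    apply List.map_fst_zip
    cases l with
    | nil => simp
    | cons a m => simp
  rw [← h3] at h1
  obtain ⟨e', he', h4⟩ := List.mem_map.1 h1
  exact ⟨e', he', h4⟩

/-- the moved vertex -/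
def mp (t : ℝ) (p : V × ℝ) : V := (p.1.1 + t * p.2, p.1.2)

theorem lerp_mp (t u : ℝ) (p q : V × ℝ) : lerp (mp t p) (mp t q) u =
    ((lerp p.1 q.1 u).1 + t * ((1 - u) * p.2 + u * q.2), (lerp p.1 q.1 u).2) := by
  unfold lerp mp
  refine Prod.ext ?_ ?_
  · simp only [Prod.fst_add, Prod.smul_fst, smul_eq_mul]
    ring
  · simp only [Prod.snd_add, Prod.smul_snd]

theorem coin (l : List (V × ℝ)) (hM : Mono l) (t : ℝ) (ht : 0 ≤ t)
    (e e' : (V × ℝ) × (V × ℝ)) (he : e ∈ cyc l) (he' : e' ∈ cyc l) (u u' : ℝ)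
    (hu : 0 ≤ u) (hu1 : u < 1) (hu' : 0 ≤ u') (hu1' : u' < 1)
    (h : lerp (mp t e.1) (mp t e.2) u = lerp (mp t e'.1) (mp t e'.2) u') :
    lerp e.1.1 e.2.1 u = lerp e'.1.1 e'.2.1 u' := by
  rw [lerp_mp, lerp_mp] at h
  have h1 := congrArg Prod.fst h
  have h2 := congrArg Prod.snd h
  simp only at h1 h2
  rcases lt_trichotomy (lerp e.1.1 e.2.1 u).1 (lerp e'.1.1 e'.2.1 u').1 with h3 | h3 | h3
  · have h4 := hM e he e' he' u u' hu hu1 hu' hu1' h2 h3
    have h5 := mul_le_mul_of_nonneg_left h4 ht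
    linarith
  · exact Prod.ext h3 h2
  · have h4 := hM e' he' e he u' u hu' hu1' hu hu1 h2.symm h3
    have h5 := mul_le_mul_of_nonneg_left h4 ht
    linarith

theorem lerp_zero (p q : V) : lerp p q 0 = p := by
  unfold lerp
  simp

theorem simple_mp (l : List (V × ℝ)) (hs : Simple (l.map Prod.fst)) (hM : Mono l) (t : ℝ)
    (ht : 0 ≤ t) : Simple (l.map (mp t)) := by
  obtain ⟨h0, h1, h2⟩ := hs
  rw [edges_cyc] at h1 h2
  refine ⟨?_, ?_, ?_⟩
  · intro h
    apply h0
    rw [List.map_eq_nil_iff] at h ⊢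
    exact h
  · rw [edges_cyc]
    rw [List.pairwise_map] at h1 ⊢
    refine List.Pairwise.imp_of_mem ?_ h1
    intro e e' he he' hd u v hu hu1 hv hv1 hc
    exact hd u v hu hu1 hv hv1 (coin l hM t ht e e' he he' u v hu hu1 hv hv1 hc)
  · rw [edges_cyc]
    intro E hE
    obtain ⟨e, he, rfl⟩ := List.mem_map.1 hE
    intro hc
    obtain ⟨e', he', h3⟩ := exists_next l e he
    have h4 := coin l hM t ht e e' he he' 0 0 le_rfl one_pos le_rfl one_pos (by
      rw [lerp_zero, lerp_zero, h3]
      exact hc)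
    rw [lerp_zero, lerp_zero, h3] at h4
    exact h2 _ (List.mem_map.2 ⟨e, he, rfl⟩) h4

theorem mono_main0 (hlin : S_lin) : P_mono := by
  intro l hs hM
  have h1 : l.map (mp 1) = mv l := by
    unfold mv
    refine List.map_congr_left fun p _ => ?_
    unfold mp
    rw [one_mul]
  refine ⟨?_, ?_⟩
  · refine hlin _ _ (by simp [mv]) ?_
    intro t ht _
    have h2 : List.zipWith (fun p q => lerp p q t) (l.map Prod.fst) (mv l) = l.map (mp t) := by
      unfold mv
      rw [List.zipWith_map, List.zipWith_self]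
      refine List.map_congr_left fun p _ => ?_
      unfold lerp mp
      refine Prod.ext ?_ ?_
      · simp only [Prod.fst_add, Prod.smul_fst, smul_eq_mul]
        ring
      · simp only [Prod.snd_add, Prod.smul_snd]
        rw [← add_smul]
        simp
    rw [h2]
    exact simple_mp l hs hM t ht
  · rw [← h1]
    exact simple_mp l hs hM 1 zero_le_one

end W853

theorem mono_main (h : S_lin) : P_mono := W853.mono_main0 h

end

end UB

end KN
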